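import Mathlib
import Pool.Agent.Helper75.Defs
import Pool.Agent.Helper75.F2Defs
import Pool.Agent.Helper75.Basic
import Pool.Agent.Helper75.F2Lemmas

namespace Pool.Agent.Y29.GT

open Pool.Agent.Helper75.Defs Pool.Agent.Helper75.F2Defs Pool.Agent.Helper75.Basic
  Pool.Agent.Helper75.F2Lemmas

/-- The closure of the `k`-th derived subgroup of the free profinite group on `x, y`;
`Dk 1` is the closed derived subgroup. -/
def Dk (k : ℕ) : Subgroup F2 := (derivedSeries F2 k).topologicalClosure

/-- The intersection of all closed derived subgroups, that is the kernel of the projection of the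
free profinite group on `x, y` onto its maximal prosolvable quotient. -/
def Dinf : Subgroup F2 := ⨅ k, Dk k

/-- The endomorphism attached to the pair `(l, f)` has an image of infinite index (Mathlib: index
zero); it exists and it is not surjective, in particular it is not an automorphism. -/
def Bad (l : Zhat) (f : F2) : Prop :=
  (∃ φ : F2 →ₜ* F2, IsPhi l f φ) ∧
    ∀ φ : F2 →ₜ* F2, IsPhi l f φ → ¬ Function.Surjective φ ∧ φ.toMonoidHom.range.index = 0

/-- The twisted conjugate `h(x,y) f(x,y) h(y,x)⁻¹`. -/
noncomputable def tw (f h : F2) : F2 := h * f * (ev Y X h)⁻¹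

end Pool.Agent.Y29.GT
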