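import Mathlib

/-!
Permutation groups: the symmetric group on `Option (ZMod m)` (`m` odd, `m ≥ 5`) is generated by a
transposition `pa` and an `m`-cycle `pb` which fixes a point.
-/

namespace Pool.Agent.Y29.GT

open Equiv Equiv.Perm

variable (m : ℕ)

/-- the transposition -/
def pa : Perm (Option (ZMod m)) := swap none (some 0)

/-- the cycle fixing `none` -/
def pb : Perm (Option (ZMod m)) := (Equiv.addRight (1 : ZMod m)).optionCongr

lemma pb_none : pb m none = none := rfl

lemma pb_some (i : ZMod m) : pb m (some i) = some (i + 1) := rfl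

lemma pb_pow_none (k : ℕ) : (pb m ^ k) none = none := by
  induction k with
  | zero => rfl
  | succ k ih => rw [pow_succ, Perm.mul_apply, pb_none, ih]

lemma pb_pow_some (k : ℕ) (i : ZMod m) : (pb m ^ k) (some i) = some (i + k) := by
  induction k generalizing i with
  | zero => simp
  | succ k ih =>
    rw [pow_succ, Perm.mul_apply, pb_some, ih]
    push_cast
    congr 1
    ring

lemma pb_pow_m : pb m ^ m = 1 := by
  ext1 x
  rcases x with _ | i
  · rw [pb_pow_none]; rfl
  · rw [pb_pow_some]; simp

lemma pa_sq : pa m ^ 2 = 1 := by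
  rw [pow_two, pa, swap_mul_self]

lemma pa_odd {k : ℕ} (hk : Odd k) : pa m ^ k = pa m := by
  obtain ⟨t, rfl⟩ := hk
  rw [pow_add, pow_mul, pa_sq, one_pow, one_mul, pow_one]

lemma pa_fix {x : Option (ZMod m)} (h1 : x ≠ none) (h2 : x ≠ some 0) : pa m x = x :=
  swap_apply_of_ne_of_ne h1 h2

lemma gen [NeZero m] (H : Subgroup (Perm (Option (ZMod m)))) (ha : pa m ∈ H) (hb : pb m ∈ H) :
    H = ⊤ := by
  have h1 : ∀ i : ZMod m, swap none (some i) ∈ H := by
    intro i
    have h2 : (pb m ^ i.val) * pa m * (pb m ^ i.val)⁻¹ ∈ H :=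
      H.mul_mem (H.mul_mem (H.pow_mem hb _) ha) (H.inv_mem (H.pow_mem hb _))
    rw [pa, ← swap_apply_apply] at h2
    rw [pb_pow_none, pb_pow_some] at h2
    simpa using h2
  have h3 : ∀ x y : Option (ZMod m), x ≠ y → swap x y ∈ H := by
    intro x y hxy
    rcases x with _ | i <;> rcases y with _ | j
    · exact absurd rfl hxy
    · exact h1 j
    · rw [swap_comm]; exact h1 i
    · have h4 : swap none (some i) * swap none (some j) * (swap none (some i))⁻¹ ∈ H :=
        H.mul_mem (H.mul_mem (h1 i) (h1 j)) (H.inv_mem (h1 i))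
      rw [← swap_apply_apply] at h4
      rwa [swap_apply_left, swap_apply_of_ne_of_ne (by simp) (fun h => hxy h.symm)] at h4
  rw [eq_top_iff, ← closure_isSwap, Subgroup.closure_le]
  rintro _ ⟨x, y, hxy, rfl⟩
  exact h3 x y hxy

lemma normal_top {α : Type} [Fintype α] [DecidableEq α] (H : Subgroup (Perm α)) [H.Normal] (x y : α)
    (hxy : x ≠ y) (h : swap x y ∈ H) : H = ⊤ := by
  rw [eq_top_iff, ← closure_isSwap, Subgroup.closure_le]
  rintro _ ⟨x', y', hxy', rfl⟩
  obtain ⟨c, hc⟩ := isConj_iff.1 (isConj_swap hxy hxy')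
  rw [← hc]
  exact Subgroup.Normal.conj_mem inferInstance _ h c

lemma alt_le_derived {α : Type} [Fintype α] [DecidableEq α] (h5 : 5 ≤ Nat.card α) (k : ℕ) :
    alternatingGroup α ≤ derivedSeries (Perm α) k := by
  induction k with
  | zero => exact le_top
  | succ k ih =>
    rw [derivedSeries_succ, ← commutator_alternatingGroup_eq_self h5]
    exact Subgroup.commutator_mono ih ih

lemma exists_alt {α : Type} [Fintype α] [DecidableEq α] (h5 : 5 ≤ Nat.card α) (i j : α) :
    ∃ s ∈ alternatingGroup α, s i = j := by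
  by_cases hij : i = j
  · exact ⟨1, one_mem _, by simpa using hij⟩
  · have : ∃ k : α, k ≠ i ∧ k ≠ j := by
      by_contra hcon
      push Not at hcon
      have h1 : (Finset.univ : Finset α) ⊆ {i, j} := by
        intro k _
        by_cases hk : k = i
        · simp [hk]
        · simp [hcon k hk]
      have h2 := Finset.card_le_card h1
      have h3 : ({i, j} : Finset α).card ≤ 2 := Finset.card_le_two
      rw [Finset.card_univ, ← Nat.card_eq_fintype_card] at h2
      omega
    obtain ⟨k, hki, hkj⟩ := this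
    refine ⟨swap j k * swap i k, ?_, ?_⟩
    · rw [mem_alternatingGroup, Perm.sign_mul, sign_swap hkj.symm, sign_swap hki.symm]; rfl
    · rw [Perm.mul_apply, swap_apply_left, swap_apply_right]

end Pool.Agent.Y29.GT
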