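import Mathlib
import Pool.Agent.Helper75.F2Lemmas
import Pool.Agent.Y29.GT.Perm
import Pool.Agent.Y29.GT.Defs

namespace Pool.Agent.Y29.GT

open Pool.Agent.Helper75.Defs Pool.Agent.Helper75.F2Defs Pool.Agent.Helper75.Basic
  Pool.Agent.Helper75.F2Lemmas
open MeasureTheory Filter Topology Equiv Equiv.Perm

lemma isClosed_Dk (k : ℕ) : IsClosed (Dk k : Set F2) := Subgroup.isClosed_topologicalClosure _

lemma Dk_one : (Dk 1 : Set F2) = derived := by
  rw [Dk, derivedSeries_one, Subgroup.topologicalClosure_coe]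
  rfl

lemma Dk_anti : Antitone Dk := by
  intro a b h
  exact Subgroup.topologicalClosure_mono (derivedSeries_antitone F2 h)

lemma Dinf_le (k : ℕ) : Dinf ≤ Dk k := iInf_le _ k

lemma isOpen_preimage {H : Type} [Group H] (ρ : F2 →* H) (ho : IsOpen (ρ.ker : Set F2))
    (s : Set H) : IsOpen (ρ ⁻¹' s) := by
  let _ : TopologicalSpace H := ⊥
  have : DiscreteTopology H := ⟨rfl⟩
  exact (isOpen_discrete s).preimage (continuous_of_isOpen_ker ρ ho)

lemma isClosed_preimage {H : Type} [Group H] (ρ : F2 →* H) (ho : IsOpen (ρ.ker : Set F2))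
    (s : Set H) : IsClosed (ρ ⁻¹' s) := by
  rw [← isOpen_compl_iff, ← Set.preimage_compl]
  exact isOpen_preimage ρ ho _

section

variable {m : ℕ} [NeZero m] (ρ : F2 →* Perm (Option (ZMod m)))

/-- the composite with the exchange of the generators -/
noncomputable def sw : F2 →* Perm (Option (ZMod m)) := ρ.comp (ev Y X).toMonoidHom

lemma sw_apply (g : F2) : sw ρ g = ρ (ev Y X g) := rfl

lemma sw_open (ho : IsOpen (ρ.ker : Set F2)) : IsOpen ((sw ρ).ker : Set F2) := by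
  have : ((sw ρ).ker : Set F2) = (ev Y X) ⁻¹' (ρ.ker : Set F2) := rfl
  rw [this]
  exact ho.preimage (ev Y X).continuous_toFun

variable (hm : Odd m) (h5 : 5 ≤ m) (hX : ρ X = pa m) (hY : ρ Y = pb m)
  (ho : IsOpen (ρ.ker : Set F2))

include hX hY in
lemma surj : Function.Surjective ρ := by
  rw [← MonoidHom.range_eq_top]
  exact gen m _ ⟨X, hX⟩ ⟨Y, hY⟩

include hm hX hY in
lemma map_ker : (sw ρ).ker.map ρ = ⊤ := by
  have : ((sw ρ).ker.map ρ).Normal := Subgroup.Normal.map inferInstance ρ (surj ρ hX hY)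
  apply normal_top _ none (some 0) (by simp)
  refine ⟨X ^ m, ?_, ?_⟩
  · show sw ρ (X ^ m) = 1
    rw [map_pow, sw_apply, ev_X, hY, pb_pow_m]
  · rw [map_pow, hX, pa_odd m hm, pa]

lemma card_opt : Nat.card (Option (ZMod m)) = m + 1 := by
  rw [Finite.card_option, Nat.card_zmod]

include hm h5 hX hY in
lemma exists_series (k : ℕ) (s : Perm (Option (ZMod m))) (hs : s ∈ alternatingGroup (Option (ZMod m))) :
    ∃ g ∈ derivedSeries F2 k, ρ g = s ∧ sw ρ g = 1 := by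
  have h1 : Function.Surjective (ρ.comp (sw ρ).ker.subtype) := by
    rw [← MonoidHom.range_eq_top, MonoidHom.range_comp, Subgroup.range_subtype]
    exact map_ker ρ hm hX hY
  have h2 : s ∈ derivedSeries (Perm (Option (ZMod m))) k :=
    alt_le_derived (by rw [card_opt]; omega) k hs
  rw [← map_derivedSeries_eq h1 k] at h2
  obtain ⟨g, hg, rfl⟩ := h2
  refine ⟨g, ?_, rfl, g.2⟩
  exact map_derivedSeries_le_derivedSeries (sw ρ).ker.subtype k ⟨g, hg, rfl⟩

include hm h5 hX hY ho in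
lemma exists_Dinf (s : Perm (Option (ZMod m))) (hs : s ∈ alternatingGroup (Option (ZMod m))) :
    ∃ g ∈ Dinf, ρ g = s ∧ sw ρ g = 1 := by
  let C : ℕ → Set F2 := fun k => (Dk k : Set F2) ∩ (ρ ⁻¹' {s} ∩ (sw ρ) ⁻¹' {1})
  have hC : ∀ k, IsClosed (C k) := fun k =>
    (isClosed_Dk k).inter ((isClosed_preimage ρ ho _).inter (isClosed_preimage _ (sw_open ρ ho) _))
  have hne : (⋂ k, C k).Nonempty := by
    apply IsCompact.nonempty_iInter_of_sequence_nonempty_isCompact_isClosed C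
    · intro k
      exact Set.inter_subset_inter_left _ (Dk_anti (Nat.le_succ k))
    · intro k
      obtain ⟨g, hg, h1, h2⟩ := exists_series ρ hm h5 hX hY k s hs
      exact ⟨g, subset_closure hg, h1, h2⟩
    · exact (hC 0).isCompact
    · exact hC
  obtain ⟨g, hg⟩ := hne
  rw [Set.mem_iInter] at hg
  refine ⟨g, ?_, (hg 0).2.1, (hg 0).2.2⟩
  rw [Dinf, Subgroup.mem_iInf]
  exact fun k => (hg k).1

/-- compatible parametrisations -/
def Comp (D : Subgroup F2) (Ψ : D → F2) : Prop :=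
  Continuous Ψ ∧ ∀ g h : D, ∀ (m : ℕ) (ρ : F2 →* Perm (Option (ZMod m))), sw ρ g = 1 →
    ρ (Ψ (g * h)) = ρ g * ρ (Ψ h)

/-- the bad event -/
def Ev {D : Subgroup F2} (Ψ : D → F2) : Set D :=
  {h | (ρ (Ψ h))⁻¹ none = none ∨ (ρ (Ψ h))⁻¹ none = some 0}

/-- the event `ρ (Ψ h) j = i` -/
def Zv {D : Subgroup F2} (Ψ : D → F2) (j i : Option (ZMod m)) : Set D :=
  {h | ρ (Ψ h) j = i}

lemma Ev_eq {D : Subgroup F2} (Ψ : D → F2) : Ev ρ Ψ = Zv ρ Ψ none none ∪ Zv ρ Ψ (some 0) none := by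
  ext h
  simp only [Ev, Zv, Set.mem_setOf_eq, Set.mem_union, Perm.inv_eq_iff_eq]
  rw [eq_comm, @eq_comm _ none (ρ (Ψ h) (some 0))]

include ho in
lemma Zv_isOpen {D : Subgroup F2} {Ψ : D → F2} (hΨ : Continuous Ψ) (j i : Option (ZMod m)) :
    IsOpen (Zv ρ Ψ j i) := by
  have : Zv ρ Ψ j i = Ψ ⁻¹' (ρ ⁻¹' {s | s j = i}) := rfl
  rw [this]
  exact (isOpen_preimage ρ ho _).preimage hΨ

include ho in
lemma Ev_isClosed {D : Subgroup F2} {Ψ : D → F2} (hΨ : Continuous Ψ) : IsClosed (Ev ρ Ψ) := by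
  have : Ev ρ Ψ = Ψ ⁻¹' (ρ ⁻¹' {s | s⁻¹ none = none ∨ s⁻¹ none = some 0}) := rfl
  rw [this]
  exact (isClosed_preimage ρ ho _).preimage hΨ

include hm h5 hX hY ho in
lemma meas_eq {D : Subgroup F2} (hD : Dinf ≤ D) [MeasurableSpace D] [BorelSpace D] (μ : Measure D)
    [μ.IsMulLeftInvariant] {Ψ : D → F2} (hΨ : Comp D Ψ) (j i i' : Option (ZMod m)) :
    μ (Zv ρ Ψ j i) = μ (Zv ρ Ψ j i') := by
  obtain ⟨s, hs, hsi⟩ := exists_alt (α := Option (ZMod m)) (by rw [card_opt]; omega) i i'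
  obtain ⟨g, hg, h1, h2⟩ := exists_Dinf ρ hm h5 hX hY ho s hs
  have h3 : (fun h : D => (⟨g, hD hg⟩ : D) * h) ⁻¹' (Zv ρ Ψ j i') = Zv ρ Ψ j i := by
    ext h
    simp only [Zv, Set.mem_preimage, Set.mem_setOf_eq]
    rw [hΨ.2 ⟨g, hD hg⟩ h m ρ h2, h1, Perm.mul_apply, ← hsi]
    exact s.injective.eq_iff
  rw [← h3, measure_preimage_mul]

include hm h5 hX hY ho in
lemma meas_Zv {D : Subgroup F2} (hD : Dinf ≤ D) [MeasurableSpace D] [BorelSpace D] (μ : Measure D)
    [μ.IsMulLeftInvariant] {Ψ : D → F2} (hΨ : Comp D Ψ) (j i : Option (ZMod m)) :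
    (m + 1 : ENNReal) * μ (Zv ρ Ψ j i) = μ Set.univ := by
  have h1 : (⋃ i' : Option (ZMod m), Zv ρ Ψ j i') = Set.univ := by
    ext h
    simp [Zv]
  rw [← h1, measure_iUnion, tsum_fintype, Finset.sum_congr rfl
    (fun i' _ => meas_eq ρ hm h5 hX hY ho hD μ hΨ j i' i), Finset.sum_const, nsmul_eq_mul,
    Finset.card_univ, ← Nat.card_eq_fintype_card, card_opt]
  · push_cast; rfl
  · intro a b hab
    rw [Function.onFun, Set.disjoint_left]
    intro h h1 h2
    exact hab (h1.symm.trans h2)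
  · exact fun i' => (Zv_isOpen ρ ho hΨ.1 j i').measurableSet

include hm h5 hX hY ho in
lemma meas_Ev {D : Subgroup F2} (hD : Dinf ≤ D) [MeasurableSpace D] [BorelSpace D] (μ : Measure D)
    [μ.IsMulLeftInvariant] {Ψ : D → F2} (hΨ : Comp D Ψ) :
    (m + 1 : ENNReal) * μ (Ev ρ Ψ) ≤ 2 * μ Set.univ := by
  calc (m + 1 : ENNReal) * μ (Ev ρ Ψ)
      ≤ (m + 1 : ENNReal) * (μ (Zv ρ Ψ none none) + μ (Zv ρ Ψ (some 0) none)) := by
        rw [Ev_eq]
        gcongr
        exact measure_union_le _ _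
    _ = 2 * μ Set.univ := by
        rw [mul_add, meas_Zv ρ hm h5 hX hY ho hD μ hΨ, meas_Zv ρ hm h5 hX hY ho hD μ hΨ, two_mul]

include hX hY ho in
lemma index_dvd (l : Zhat) (f : F2) (hf : ¬ ((ρ f)⁻¹ none = none ∨ (ρ f)⁻¹ none = some 0))
    (φ : F2 →ₜ* F2) (hφ : IsPhi l f φ) : m + 1 ∣ φ.toMonoidHom.range.index := by
  push Not at hf
  set ω : Option (ZMod m) := (ρ f)⁻¹ none with hω
  set P : Subgroup F2 := (MulAction.stabilizer (Perm (Option (ZMod m))) ω).comap ρ with hP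
  have hPi : P.index = m + 1 := by
    rw [hP, Subgroup.index_comap_of_surjective _ (surj ρ hX hY), MulAction.index_stabilizer,
      MulAction.orbit_eq_univ, Set.ncard_univ, card_opt]
  rw [← hPi]
  apply Subgroup.index_dvd_of_le
  rintro _ ⟨g, rfl⟩
  show (ρ.comp φ.toMonoidHom) g ∈ MulAction.stabilizer (Perm (Option (ZMod m))) ω
  apply mem_of_gen
  · have : ((ρ.comp φ.toMonoidHom).ker : Set F2) = φ ⁻¹' (ρ.ker : Set F2) := rfl
    rw [this]
    exact ho.preimage φ.continuous_toFun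
  · show ρ (φ X) ∈ _
    rw [hφ.1, fin_ppow ρ ho X l 2 (by rw [hX]; exact pa_sq m), hX]
    apply Subgroup.pow_mem
    rw [MulAction.mem_stabilizer_iff, Perm.smul_def]
    exact pa_fix m hf.1 hf.2
  · show ρ (φ Y) ∈ _
    rw [hφ.2, map_mul, map_mul, map_inv,
      fin_ppow ρ ho Y l ⟨m, Nat.pos_of_ne_zero (NeZero.ne m)⟩ (by rw [hY]; exact pb_pow_m m), hY]
    rw [MulAction.mem_stabilizer_iff, Perm.smul_def, Perm.mul_apply, Perm.mul_apply]
    have h1 : (ρ f) ω = none := by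
      rw [hω, ← Perm.mul_apply, mul_inv_cancel, Perm.one_apply]
    rw [h1, pb_pow_none]

end

lemma exists_rho (m : ℕ) [NeZero m] : ∃ ρ : F2 →* Perm (Option (ZMod m)), ρ X = pa m ∧ ρ Y = pb m ∧
    IsOpen (ρ.ker : Set F2) := exists_finite_XY _ _

/-- the chosen finite quotients: `m = 2 n + 5` -/
noncomputable def rh (n : ℕ) : F2 →* Perm (Option (ZMod (2 * n + 5))) :=
  (exists_rho (2 * n + 5)).choose

lemma rh_spec (n : ℕ) : rh n X = pa (2 * n + 5) ∧ rh n Y = pb (2 * n + 5) ∧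
    IsOpen ((rh n).ker : Set F2) := (exists_rho (2 * n + 5)).choose_spec

lemma odd_m (n : ℕ) : Odd (2 * n + 5) := ⟨n + 2, by ring⟩

/-- the set of good points: for infinitely many `n` the bad event does not happen -/
def Good {D : Subgroup F2} (Ψ : D → F2) (N : ℕ) : Set D := ⋃ n : {n : ℕ // N ≤ n}, (Ev (rh n.1) Ψ)ᶜ

lemma good_open {D : Subgroup F2} {Ψ : D → F2} (hΨ : Continuous Ψ) (N : ℕ) : IsOpen (Good Ψ N) :=
  isOpen_iUnion fun n => (Ev_isClosed (rh n.1) (rh_spec n.1).2.2 hΨ).isOpen_compl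

lemma good_null {D : Subgroup F2} (hD : Dinf ≤ D) (hc : IsClosed (D : Set F2)) [MeasurableSpace D]
    [BorelSpace D] (μ : Measure D) [μ.IsHaarMeasure] {Ψ : D → F2} (hΨ : Comp D Ψ) (N : ℕ) :
    μ (Good Ψ N)ᶜ = 0 := by
  have : CompactSpace D := isCompact_iff_compactSpace.1 hc.isCompact
  have hfin : μ Set.univ < ⊤ := measure_lt_top μ _
  have h1 : ∀ n, N ≤ n → μ (Good Ψ N)ᶜ ≤ μ (Ev (rh n) Ψ) := by
    intro n hn
    apply measure_mono
    rw [Good, Set.compl_iUnion]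
    intro h hh
    have := Set.mem_iInter.1 hh ⟨n, hn⟩
    rwa [compl_compl] at this
  have h2 : ∀ n, N ≤ n → ((n : ENNReal)) * μ (Good Ψ N)ᶜ ≤ 2 * μ Set.univ := by
    intro n hn
    have h3 := meas_Ev (rh n) (odd_m n) (by omega) (rh_spec n).1 (rh_spec n).2.1 (rh_spec n).2.2
      hD μ hΨ
    refine le_trans (mul_le_mul' ?_ (h1 n hn)) h3
    push_cast
    calc (n : ENNReal) ≤ 2 * n := by
          nth_rewrite 1 [← one_mul (n : ENNReal)]
          gcongr
          norm_num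
      _ ≤ 2 * n + 5 + 1 := by
          rw [add_assoc]; exact le_self_add
  by_contra hne
  have h4 : Tendsto (fun n : ℕ => (n : ENNReal) * μ (Good Ψ N)ᶜ) atTop (𝓝 ⊤) := by
    have := ENNReal.Tendsto.mul_const (b := μ (Good Ψ N)ᶜ) ENNReal.tendsto_nat_nhds_top
      (Or.inl ENNReal.top_ne_zero)
    rwa [ENNReal.top_mul hne] at this
  have h5 : ∀ᶠ n : ℕ in atTop, (n : ENNReal) * μ (Good Ψ N)ᶜ ≤ 2 * μ Set.univ :=
    eventually_atTop.2 ⟨N, h2⟩
  have h6 := le_of_tendsto h4 h5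
  have h7 : 2 * μ Set.univ < ⊤ := ENNReal.mul_lt_top (by simp) hfin
  exact absurd h6 (not_le.2 h7)

lemma bad_of_good {D : Subgroup F2} {Ψ : D → F2} (h : D) (hh : ∀ N, h ∈ Good Ψ N) (l : Zhat) :
    Bad l (Ψ h) := by
  refine ⟨⟨ev (ppow X l) ((Ψ h)⁻¹ * ppow Y l * Ψ h), ev_X _ _, ev_Y _ _⟩, ?_⟩
  intro φ hφ
  have h0 : φ.toMonoidHom.range.index = 0 := by
    by_contra hne
    obtain ⟨n, hn⟩ := Set.mem_iUnion.1 (hh φ.toMonoidHom.range.index)
    have h1 := index_dvd (rh n.1) (rh_spec n.1).1 (rh_spec n.1).2.1 (rh_spec n.1).2.2 l (Ψ h) hn φ hφ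
    have h2 := Nat.le_of_dvd (Nat.pos_of_ne_zero hne) h1
    have h3 := n.2
    omega
  refine ⟨?_, h0⟩
  intro hs
  have h1 : φ.toMonoidHom.range = ⊤ := MonoidHom.range_eq_top.2 hs
  rw [h1, Subgroup.index_top] at h0
  exact one_ne_zero h0

lemma ae_bad {D : Subgroup F2} (hD : Dinf ≤ D) (hc : IsClosed (D : Set F2)) [MeasurableSpace D]
    [BorelSpace D] (μ : Measure D) [μ.IsHaarMeasure] {Ψ : D → F2} (hΨ : Comp D Ψ) :
    ∀ᵐ h ∂μ, ∀ l : Zhat, Bad l (Ψ h) := by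
  have h1 : ∀ᵐ h ∂μ, ∀ N, h ∈ Good Ψ N := by
    rw [ae_all_iff]
    intro N
    rw [ae_iff]
    exact good_null hD hc μ hΨ N
  filter_upwards [h1] with h hh l
  exact bad_of_good h hh l

lemma residual_bad {D : Subgroup F2} (hD : Dinf ≤ D) (hc : IsClosed (D : Set F2)) {Ψ : D → F2}
    (hΨ : Comp D Ψ) : ∀ᶠ h in residual D, ∀ l : Zhat, Bad l (Ψ h) := by
  have : CompactSpace D := isCompact_iff_compactSpace.1 hc.isCompact
  let _ : MeasurableSpace D := borel D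
  have : BorelSpace D := ⟨rfl⟩
  have h1 : ∀ N, ∀ᶠ h in residual D, h ∈ Good Ψ N := by
    intro N
    apply residual_of_dense_open (good_open hΨ.1 N)
    have h2 := good_null hD hc (Measure.haar : Measure D) hΨ N
    have h3 : interior (Good Ψ N)ᶜ = ∅ := Measure.interior_eq_empty_of_null h2
    rwa [interior_compl, Set.compl_empty_iff, ← dense_iff_closure_eq] at h3
  have h2 := eventually_countable_forall.2 h1
  filter_upwards [h2] with h hh l
  exact bad_of_good h hh l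

lemma comp_mul (D : Subgroup F2) (f : F2) : Comp D (fun h => (h : F2) * f) := by
  refine ⟨by fun_prop, ?_⟩
  intro g h m ρ _
  show ρ (((g : F2) * h) * f) = ρ g * ρ ((h : F2) * f)
  rw [mul_assoc, map_mul]

lemma comp_tw (D : Subgroup F2) (f : F2) : Comp D (fun h => tw f (h : F2)) := by
  constructor
  · unfold tw
    have h1 : Continuous (fun h : D => ev Y X (h : F2)) :=
      (ev Y X).continuous_toFun.comp continuous_subtype_val
    exact (continuous_subtype_val.mul continuous_const).mul h1.inv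
  · intro g h m ρ hg
    have hg' : ρ (ev Y X (g : F2)) = 1 := hg
    show ρ (((g : F2) * h) * f * (ev Y X ((g : F2) * h))⁻¹) = ρ g * ρ ((h : F2) * f * (ev Y X h)⁻¹)
    rw [map_mul (ev Y X), mul_inv_rev, map_mul, map_mul, map_mul, map_mul, map_inv, map_inv, hg',
      map_mul, map_mul, map_inv, inv_one, mul_one, mul_assoc, mul_assoc, mul_assoc]

lemma ev_ev (a : F2) : ev Y X (ev Y X a) = a := by
  have h : (ev Y X).comp (ev Y X) = ContinuousMonoidHom.id F2 := by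
    apply hom_ext_XY
    · show ev Y X (ev Y X X) = X
      rw [ev_X, ev_Y]
    · show ev Y X (ev Y X Y) = Y
      rw [ev_Y, ev_X]
  exact congrArg (fun φ : F2 →ₜ* F2 => φ a) h

lemma relI_tw {f : F2} (hf : RelI f) (h : F2) : RelI (tw f h) := by
  unfold RelI at *
  rw [tw, map_mul, map_mul, map_inv, ev_ev]
  calc h * f * (ev Y X h)⁻¹ * (ev Y X h * ev Y X f * h⁻¹) = h * (f * ev Y X f) * h⁻¹ := by group
    _ = 1 := by rw [hf]; group

lemma ev_Dk (k : ℕ) {h : F2} (hh : h ∈ Dk k) : ev Y X h ∈ Dk k := by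
  have h1 : (ev Y X) '' closure (derivedSeries F2 k : Set F2) ⊆
      closure ((ev Y X) '' (derivedSeries F2 k : Set F2)) :=
    image_closure_subset_closure_image (ev Y X).continuous_toFun
  have h2 : (ev Y X) '' (derivedSeries F2 k : Set F2) ⊆ (derivedSeries F2 k : Set F2) := by
    rintro _ ⟨g, hg, rfl⟩
    exact map_derivedSeries_le_derivedSeries (ev Y X).toMonoidHom k ⟨g, hg, rfl⟩
  exact closure_mono h2 (h1 ⟨h, hh, rfl⟩)

lemma normal_Dk (k : ℕ) : (Dk k).Normal := Subgroup.is_normal_topologicalClosure _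

lemma tw_mem_Dinf (f : F2) {h : F2} (hh : h ∈ Dinf) : tw f h * f⁻¹ ∈ Dinf := by
  rw [Dinf, Subgroup.mem_iInf] at *
  intro k
  have := normal_Dk k
  have h1 : f * (ev Y X h)⁻¹ * f⁻¹ ∈ Dk k :=
    (normal_Dk k).conj_mem _ ((Dk k).inv_mem (ev_Dk k (hh k))) f
  have h2 := (Dk k).mul_mem (hh k) h1
  rw [tw]
  convert h2 using 1
  group

lemma isClosed_Dinf : IsClosed (Dinf : Set F2) := by
  rw [Dinf, Subgroup.coe_iInf]
  exact isClosed_iInter isClosed_Dk

lemma exists_near (f : F2) (hf : f ∈ derived) (hI : RelI f) (U : Set F2) (hU : U ∈ 𝓝 f) :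
    ∃ g ∈ U, g ∈ derived ∧ g * f⁻¹ ∈ Dinf ∧ RelI g ∧ ∀ l : Zhat, Bad l g := by
  have hc := comp_tw Dinf f
  have h0 : tw f ((1 : Dinf) : F2) = f := by
    rw [tw, Subgroup.coe_one, map_one]
    group
  have hd : Dense {h : Dinf | ∀ l : Zhat, Bad l (tw f h)} := by
    have : CompactSpace Dinf := isCompact_iff_compactSpace.1 isClosed_Dinf.isCompact
    exact dense_of_mem_residual (residual_bad le_rfl isClosed_Dinf hc)
  have h1 : (fun h : Dinf => tw f h) ⁻¹' U ∈ 𝓝 (1 : Dinf) :=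
    hc.1.continuousAt (by rw [h0]; exact hU)
  obtain ⟨h, hh, hhU⟩ := hd.inter_nhds_nonempty h1
  have h2 := tw_mem_Dinf f h.2
  refine ⟨tw f h, hhU, ?_, h2, relI_tw hI _, hh⟩
  rw [← Dk_one] at hf ⊢
  have h3 := (Dk 1).mul_mem (Dinf_le 1 h2) hf
  rwa [inv_mul_cancel_right] at h3

end Pool.Agent.Y29.GT
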